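import Pool.Agent.H12R3.VR.Stmts

set_option autoImplicit false

namespace Pool.Agent.H551R3.VR

open H12VR

theorem ax_comp (Q P : Fin 6 → ℝ) (x y : ℝ) :
    ax (comp Q P) x y = ax Q (ax P x y) (ay P x y) := by
  simp only [ax, ay, comp, Matrix.cons_val]
  ring

theorem ay_comp (Q P : Fin 6 → ℝ) (x y : ℝ) :
    ay (comp Q P) x y = ay Q (ax P x y) (ay P x y) := by
  simp only [ax, ay, comp, Matrix.cons_val]
  ring

theorem ax_inv (P : Fin 6 → ℝ) (h : dt P ≠ 0) (x y : ℝ) :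
    ax (inv P) (ax P x y) (ay P x y) = x := by
  simp only [ax, ay, inv, Matrix.cons_val]
  field_simp
  simp only [dt]
  ring

theorem ay_inv (P : Fin 6 → ℝ) (h : dt P ≠ 0) (x y : ℝ) :
    ay (inv P) (ax P x y) (ay P x y) = y := by
  simp only [ax, ay, inv, Matrix.cons_val]
  field_simp
  simp only [dt]
  ring

theorem dt_sq (f : ℝ → ℝ) (c : ℝ) (P : Fin 6 → ℝ) (h : Rig f c P) : dt P ^ 2 = c ^ 2 := by
  obtain ⟨_, h1, h2, h3⟩ := h
  have : dt P ^ 2 = (P 0 ^ 2 + P 3 ^ 2) * (P 1 ^ 2 + P 4 ^ 2) - (P 0 * P 1 + P 3 * P 4) ^ 2 := by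
    simp only [dt]
    ring
  rw [this, h1, h2, h3]
  ring

theorem dt_comp_inv (P P' : Fin 6 → ℝ) (h : dt P' ≠ 0) :
    dt (comp (inv P') P) = dt P / dt P' := by
  have e : dt (comp (inv P') P) =
      ((P' 4 / dt P') * (P' 0 / dt P') - (-P' 1 / dt P') * (-P' 3 / dt P')) * dt P := by
    simp only [dt, comp, inv, Matrix.cons_val]
    ring
  rw [e]
  have e2 : (P' 4 / dt P') * (P' 0 / dt P') - (-P' 1 / dt P') * (-P' 3 / dt P') = 1 / dt P' := by
    have : (P' 4 / dt P') * (P' 0 / dt P') - (-P' 1 / dt P') * (-P' 3 / dt P') =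
        (P' 0 * P' 4 - P' 1 * P' 3) / (dt P' * dt P') := by
      field_simp
    rw [this]
    have h2 : P' 0 * P' 4 - P' 1 * P' 3 = dt P' := rfl
    rw [h2]
    field_simp
  rw [e2]
  ring

theorem taskGroup : TaskGroup := by
  intro f c c' P P' hc hc' hP hP'
  have hd := dt_sq f c P hP
  have hd' := dt_sq f c' P' hP'
  obtain ⟨⟨d1, a1, s1⟩, r1, r2, r3⟩ := hP
  obtain ⟨⟨d2, a2, s2⟩, q1, q2, q3⟩ := hP'
  have key : ∀ x x' : ℝ, ax P' x' (f x') = ax P x (f x) →
      ax (comp (inv P') P) x (f x) = x' ∧ ay (comp (inv P') P) x (f x) = f x' := by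
    intro x x' h
    have h2 : ay P' x' (f x') = ay P x (f x) := by
      rw [← a1, ← a2, h]
    rw [ax_comp, ay_comp, ← h, ← h2]
    exact ⟨ax_inv P' d2 x' (f x'), ay_inv P' d2 x' (f x')⟩
  have e4 : P' 4 ^ 2 = c' ^ 2 * P' 0 ^ 2 := by
    have : P' 4 ^ 2 * (P' 0 ^ 2 + P' 3 ^ 2) = P' 0 ^ 2 * (P' 1 ^ 2 + P' 4 ^ 2) +
        (P' 0 * P' 1 + P' 3 * P' 4) * (P' 3 * P' 4 - P' 0 * P' 1) := by ring
    rw [q1, q2, q3] at this
    linarith
  have e1 : P' 1 ^ 2 = c' ^ 2 * P' 3 ^ 2 := by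
    have : P' 1 ^ 2 * (P' 0 ^ 2 + P' 3 ^ 2) = P' 3 ^ 2 * (P' 1 ^ 2 + P' 4 ^ 2) +
        (P' 0 * P' 1 + P' 3 * P' 4) * (P' 0 * P' 1 - P' 3 * P' 4) := by ring
    rw [q1, q2, q3] at this
    linarith
  have e14 : P' 1 * P' 4 = -(c' ^ 2 * (P' 0 * P' 3)) := by
    have : P' 1 * P' 4 * (P' 0 ^ 2 + P' 3 ^ 2) = -(P' 0 * P' 3 * (P' 1 ^ 2 + P' 4 ^ 2)) +
        (P' 0 * P' 1 + P' 3 * P' 4) * (P' 0 * P' 4 + P' 1 * P' 3) := by ring
    rw [q1, q2, q3] at this
    linarith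
  have hcc : c' ^ 2 ≠ 0 := pow_ne_zero 2 (ne_of_gt hc')
  have hdd : dt P' ^ 2 = c' ^ 2 := hd'
  have form : ∀ a b s t : ℝ,
      ((P' 4 / dt P') * a + (-P' 1 / dt P') * b) * ((P' 4 / dt P') * s + (-P' 1 / dt P') * t) +
        c' ^ 2 * (((-P' 3 / dt P') * a + (P' 0 / dt P') * b) *
          ((-P' 3 / dt P') * s + (P' 0 / dt P') * t)) = a * s + b * t := by
    intro a b s t
    have e : ((P' 4 / dt P') * a + (-P' 1 / dt P') * b) *
        ((P' 4 / dt P') * s + (-P' 1 / dt P') * t) +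
        c' ^ 2 * (((-P' 3 / dt P') * a + (P' 0 / dt P') * b) *
          ((-P' 3 / dt P') * s + (P' 0 / dt P') * t)) =
        (a * s * (P' 4 ^ 2 + c' ^ 2 * P' 3 ^ 2) + b * t * (P' 1 ^ 2 + c' ^ 2 * P' 0 ^ 2) -
          (a * t + b * s) * (P' 1 * P' 4 + c' ^ 2 * (P' 0 * P' 3))) / dt P' ^ 2 := by
      field_simp
      ring
    rw [e, hdd, e14]
    have h1 : P' 4 ^ 2 + c' ^ 2 * P' 3 ^ 2 = c' ^ 2 := by
      rw [e4, ← mul_add, q1, mul_one]
    have h2 : P' 1 ^ 2 + c' ^ 2 * P' 0 ^ 2 = c' ^ 2 := by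
      rw [e1, ← mul_add, add_comm, q1, mul_one]
    rw [h1, h2]
    field_simp
    ring
  refine ⟨⟨?_, ?_, ?_⟩, ⟨?_, ?_, ?_⟩, dt_comp_inv P P' d2, hd, ?_, ?_⟩
  · rw [dt_comp_inv P P' d2]
    exact div_ne_zero d1 d2
  · intro x
    obtain ⟨x', hx'⟩ := s2 (ax P x (f x))
    obtain ⟨k1, k2⟩ := key x x' hx'
    rw [k1, k2]
  · intro x'
    obtain ⟨x, hx⟩ := s1 (ax P' x' (f x'))
    exact ⟨x, (key x x' hx.symm).1⟩
  · have h := form (P 0) (P 3) (P 0) (P 3)
    have h2 : P 0 * P 0 + P 3 * P 3 = 1 := by linarith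
    rw [h2] at h
    simp only [comp, inv, Matrix.cons_val]
    rw [pow_two, pow_two]
    linarith
  · have h := form (P 1) (P 4) (P 1) (P 4)
    have h2 : P 1 * P 1 + P 4 * P 4 = c ^ 2 := by linarith
    rw [h2] at h
    simp only [comp, inv, Matrix.cons_val]
    linarith
  · have h := form (P 0) (P 3) (P 1) (P 4)
    rw [r3] at h
    simp only [comp, inv, Matrix.cons_val]
    linarith
  · intro hne hid
    apply hne
    have hx : ∀ x y : ℝ, ax P x y = ax P' x y ∧ ay P x y = ay P' x y := by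
      intro x y
      have g1 : ax (inv P') (ax P x y) (ay P x y) = x := by
        rw [← ax_comp, hid]
        simp [ax, id6]
      have g2 : ay (inv P') (ax P x y) (ay P x y) = y := by
        rw [← ay_comp, hid]
        simp [ay, id6]
      have g3 : ∀ u v : ℝ, ax P' (ax (inv P') u v) (ay (inv P') u v) = u ∧
          ay P' (ax (inv P') u v) (ay (inv P') u v) = v := by
        intro u v
        constructor
        · simp only [ax, ay, inv, Matrix.cons_val]
          field_simp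
          simp only [dt]
          ring
        · simp only [ax, ay, inv, Matrix.cons_val]
          field_simp
          simp only [dt]
          ring
      have g4 := g3 (ax P x y) (ay P x y)
      rw [g1, g2] at g4
      exact ⟨g4.1.symm, g4.2.symm⟩
    have h00 := hx 0 0
    have h10 := hx 1 0
    have h01 := hx 0 1
    simp only [ax, ay] at h00 h10 h01
    funext i
    fin_cases i
    · show P 0 = P' 0
      linarith [h00.1, h10.1]
    · show P 1 = P' 1
      linarith [h00.1, h01.1]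
    · show P 2 = P' 2
      linarith [h00.1]
    · show P 3 = P' 3
      linarith [h00.2, h10.2]
    · show P 4 = P' 4
      linarith [h00.2, h01.2]
    · show P 5 = P' 5
      linarith [h00.2]
  · intro x
    obtain ⟨x', hx'⟩ := s2 (ax P x (f x))
    obtain ⟨k1, k2⟩ := key x x' hx'
    rw [k1]
    exact hx'

/-- Alias with the name asked for by the project owner. -/
theorem t : H12VR.TaskGroup := taskGroup

end Pool.Agent.H551R3.VR
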